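import Pool.Agent.Lib.MP_8d8c46_lc.EL.CV7

/-!
# Convex programs built from `2 ^ (n ^ c)` constraints of dimension `n ^ c` do not solve small-set expansion

The definitions are in `Pool/Agent/Lib/MP_8d8c46_lc/Problem.lean` (the promise problem
`SSE(η, δ)`: `SSEYes` and `SSENo`) and in `Pool/Agent/Lib/MP_8d8c46_lc/EL/CVDef.lean` (the model of
convex programming relaxations: `ConvexRelaxation` and `ConvexRelaxation.Separates`).

Proof idea. Let `δ = p / q`. A random `q`-lift `G` of a random bipartite `d`-regular graph `B` is a
No instance, while a Gaussian process on the vertices defines consistent local distributions of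
labellings of the vertices of `B` by sets of `p` of the `q` sheets, which believe that the set of
the labelling hardly expands; labels of vertices far from a set are uniform and independent of the
labels on the set. By convex duality (up to an arbitrarily small error) a relaxation writes the
expansion of the set of a labelling, minus `ε`, for each relabelled copy of `G`, as a sum of
nonnegative functions `g_i` of the labelling, one for each constraint, where `g_i` depends on the
relabelling but lies in a space of functions of dimension at most `dim + 1` which does not. The
functional of the local distributions, relabelled by a random permutation of the vertices of `B`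
and random permutations of the sheets, is, outside of an exponentially small set of relabellings,
nearly nonnegative on a given nonnegative function of small supremum norm (density restoration and
a level inequality of hypercontractive type); a net of the small-dimensional space, together with a
second moment bound for the norm of the functional on it, makes this uniform over the space.
-/

set_option autoImplicit false

namespace Pool.Agent.Results.MP_8d8c46_lc.ConvexPrograms

open Pool.Agent.Lib.MP_8d8c46_lc Pool.Agent.Lib.MP_8d8c46_lc.EL

/-- For all rationals `0 < δ < η < 1` and all sufficiently large `d` the following holds: for every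
`ε > 0` there is `c > 0` such that for every sufficiently large `N` and every set `V` of
`2 d q N` vertices, where `q` is the denominator of `δ`, there are `d`-regular Yes instances of
`SSE(0, δ)` and `d`-regular No instances of `SSE(η, δ)` on `V`, but every convex programming
relaxation with constraints of dimension at most `|V| ^ c` that separates the `d`-regular graphs on
`V` with a set of `δ|V|` vertices of expansion at most `ε` from the `d`-regular No instances of
`SSE(η, δ)` on `V` has more than `2 ^ (|V| ^ c)` constraints. -/
theorem result {η δ : ℚ} (hδ : 0 < δ) (hδη : δ < η) (hη : η < 1) :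
    ∃ d₀ : ℕ, ∀ d ≥ d₀, ∀ ε : ℝ, 0 < ε → ∃ c : ℝ, 0 < c ∧ ∃ N₀ : ℕ, ∀ N ≥ N₀,
      ∀ (V : Type) [Fintype V], Fintype.card V = 2 * d * δ.den * N →
        (∃ G : SimpleGraph V, Regular G d ∧ SSEYes 0 δ G) ∧
        (∃ G : SimpleGraph V, Regular G d ∧ SSENo η δ G) ∧
        ∀ P : ConvexRelaxation V δ d, P.Separates ε η → (P.dim : ℝ) ≤ (Fintype.card V : ℝ) ^ c →
          (2 : ℝ) ^ ((Fintype.card V : ℝ) ^ c) < P.size := by
  obtain ⟨p, hp⟩ : ∃ p : ℕ, (p : ℤ) = δ.num := ⟨δ.num.toNat, Int.toNat_of_nonneg
    (Rat.num_pos.2 hδ).le⟩
  obtain ⟨q, hq⟩ : ∃ q : ℕ, q = δ.den := ⟨_, rfl⟩
  have hq0 : 0 < q := by rw [hq]; exact δ.den_pos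
  have hqQ : (0 : ℚ) < q := by exact_mod_cast hq0
  have hδ' : δ = (p : ℚ) / q := by
    rw [hq, eq_div_iff (by exact_mod_cast δ.den_nz), Rat.mul_den_eq_num, ← hp]
    rfl
  have hp1 : 1 ≤ p := by
    have := Rat.num_pos.2 hδ
    omega
  have hpq : p ≤ q := by
    have h3 : (p : ℚ) / q < 1 := by rw [← hδ']; linarith
    rw [div_lt_one hqQ] at h3
    exact_mod_cast h3.le
  rw [← hq]
  exact main_cv hp1 hpq hδ' hδη

end Pool.Agent.Results.MP_8d8c46_lc.ConvexPrograms
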