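import Pool.Agent.Lib.MP_8d8c46_lc.Gap.M05

/-!
# Semidefinite programming with any constant number of Sherali–Adams rounds does not decide
small-set expansion, at any fixed small density

The definitions are in `Pool/Agent/Lib/MP_8d8c46_lc/Problem.lean` (the promise problem
`SSE(η, δ)`), `Pool/Agent/Lib/MP_8d8c46_lc/SA/Defs.lean` (the Sherali–Adams relaxations with a size
constraint) and `Pool/Agent/Lib/MP_8d8c46_lc/SDP/Relax.lean` (`BasicSDP`).

Proof idea. A vertex is a tuple of `R` points of the cube `F₂^D` with marks in `ZMod b`, `δ = a / b`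
(and a point of a fibre which makes the graph simple). One step permutes the coordinates at random,
resamples every coordinate with probability `ε / 2` and moves the other points by a tiny noise.
A vertex is in the pseudo-set if a Poisson process of pairs (point, time) hits a ball around one of
its points at a time near the mark of that point. Such a process exists in a Euclidean space of
dimension `2 k + 1` for any `k` tuples, because only the near points of different tuples matter.
The No side is a hypercontractive inequality on product spaces for symmetric functions which are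
stable under the tiny noise: all their generalised influences vanish as `R → ∞`.
-/

set_option autoImplicit false

open scoped Classical

namespace Pool.Agent.Results.MP_8d8c46_lc.SDPGap

open Pool.Agent.Lib.MP_8d8c46_lc Pool.Agent.Lib.MP_8d8c46_lc.SA Pool.Agent.Lib.MP_8d8c46_lc.SDP

/-- For all rationals `0 < η < 1/2`, `0 < ε < 1` and `0 < δ ≤ (η / 4) ^ (16 / ε)` and every `k` there
are arbitrarily large `d`-regular graphs `G` which are No instances of `SSE(η, δ)` and for which the
Sherali–Adams relaxation with `k` rounds together with the basic semidefinite program has a feasible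
solution `X` of expansion at most `ε`. -/
theorem result {η ε δ : ℚ} (hη0 : 0 < η) (hη1 : η < 1 / 2) (hε0 : 0 < ε) (hε1 : ε < 1)
    (hδ0 : 0 < δ) (hδ : (δ : ℝ) ≤ ((η : ℝ) / 4) ^ (16 / (ε : ℝ))) (k N₀ : ℕ) :
    ∃ (V : Type) (_ : Fintype V) (_ : DecidableEq V) (G : SimpleGraph V) (d : ℕ),
      N₀ ≤ Fintype.card V ∧ 1 ≤ d ∧ Regular G d ∧ SSENo η δ G ∧
        ∃ X : Finset V → ℝ, SheraliAdams k (δ * Fintype.card V) X ∧ BasicSDP X ∧
          pseudoExpansion G d (δ * Fintype.card V) X ≤ ε := by
  have hηR0 : (0 : ℝ) < η := by exact_mod_cast hη0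
  have hηR1 : (η : ℝ) ≤ 1 / 2 := by
    have : (η : ℝ) < ((1 / 2 : ℚ) : ℝ) := by exact_mod_cast hη1
    push_cast at this
    linarith
  have hεR0 : (0 : ℝ) < ε := by exact_mod_cast hε0
  have hεR1 : (ε : ℝ) ≤ 1 := by exact_mod_cast hε1.le
  have hnum0 : 0 < δ.num := Rat.num_pos.2 hδ0
  have hnum : (δ.num.toNat : ℤ) = δ.num := Int.toNat_of_nonneg hnum0.le
  have hnum1 : 1 ≤ δ.num.toNat := by omega
  have hq : δ = (δ.num.toNat : ℚ) / δ.den := by
    rw [eq_div_iff (by exact_mod_cast δ.den_ne_zero), Rat.mul_den_eq_num, ← hnum]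
    rfl
  have hqR : (δ : ℝ) = (δ.num.toNat : ℝ) / δ.den := by
    have h := congrArg (fun x : ℚ => (x : ℝ)) hq
    push_cast at h
    exact h
  rw [hqR] at hδ ⊢
  obtain ⟨V, hV1, hV2, G, d, n₁, hN, hn1, hcard, hd, hreg, hno, X, hX1, hX2, hX3⟩ :=
    Gap.M05_main (εq := ε) hηR0 hηR1 rfl hεR0 hεR1 (k := max k 2) (le_max_right _ _) hnum1
      δ.den_pos hδ N₀
  have hsize : ((δ.num.toNat * n₁ : ℕ) : ℚ) = δ * Fintype.card V := by
    rw [hcard]
    have h1 : ((δ.num.toNat : ℕ) : ℚ) = δ * δ.den := by
      rw [Rat.mul_den_eq_num, ← hnum]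
      rfl
    push_cast
    rw [h1]
    ring
  refine ⟨V, hV1, hV2, G, d, hN, hd, hreg, ⟨d, ⟨hd, hreg, δ.num.toNat * n₁, by positivity, hsize⟩,
    fun S hS => ?_⟩, X, sheraliAdams_mono (le_max_left _ _) hX1, hX2, hX3⟩
  have hSR : (S.card : ℝ) = (δ.num.toNat : ℝ) / δ.den * Fintype.card V := by
    rw [← hqR]
    exact_mod_cast hS
  have hpos : 0 < S.card := by
    have h1 : (0 : ℚ) < (S.card : ℚ) := by
      rw [hS, ← hsize]
      have : 0 < δ.num.toNat * n₁ := by positivity
      exact_mod_cast this
    exact_mod_cast h1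
  rw [le_expansion_iff hreg hd hpos]
  have h3 := hno S hSR
  exact_mod_cast h3

end Pool.Agent.Results.MP_8d8c46_lc.SDPGap
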