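import Pool.Agent.Lib.MP_8d8c46_lc.Nw.Main
import Pool.Agent.Lib.MP_8d8c46_lc.WLMain

/-!
# The number of pebbles which decide small-set expansion; symmetric reductions

For `η < 0.24` fewer than linearly many pebbles distinguish the Yes instances of `SSE(η, δ)` from the
No instances, so symmetric reductions from 3-SAT have superlinear size; for `η ≥ 0.496` linearly
many pebbles are needed.

The definitions are in `Pool/Agent/Lib/MP_8d8c46_lc/Problem.lean` (the promise problem
`SSE(η, δ)`: `SSEYes` and `SSENo`), in `Pool/Agent/Lib/MP_8d8c46_lc/Pebble.lean` (the bijective
pebble game on graphs: `PebbleEquiv`), in `Pool/Agent/Lib/MP_8d8c46_lc/CW/Defs.lean` (the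
bijective pebble game on relational structures: `Struct`, `IsPIso`, `Wins`, `Eqv`; symmetric maps
from structures to graphs: `SymMap`, `SymMap.Vtx`, `SymMap.graph`; oracles for `SSE(η, δ)`:
`Oracle`, `Solves`; symmetric oracle algorithms: `SymAlg`, `SymAlg.Accepts`, `SymAlg.AsksLarge`;
3-CNF formulas: `Formula`, `Satisfiable`, `ValueLt`, `toStruct`) and in
`Pool/Agent/Lib/MP_8d8c46_lc/Nw/Defs.lean` (the exponent `expo`).

Proof idea. (The oracle.) Suppose that Duplicator wins the game with `r + 2` pebbles on a Yes
instance `G` and a No instance `H` with `n` vertices, `N = δ n`. Call a function on the vertices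
measurable if it depends only on the type of the vertex over some `r` vertices, the seeds. Let `ρ`
be small. For a vertex set `U` let `F U` be twice the number of its edges minus `(1 + ρ) η d |U|`;
this is supermodular. Start with the empty set `W` and, as long as possible, add all measurable sets
`R` with at most `ρ N / 2` vertices for which `W ∪ R` maximises `F` among its subsets. In `H` the set
`W` never has more than `N / (1 + ρ)` vertices, because `H` is a No instance, and in `G` it has as
many. (The property can be tested on measurable subsets: averaging over the types does not decrease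
the extension of `F` to functions.) Let `T` be the averaging operator of `G` without the edges
inside `W`, with the scalar product weighted by the remaining degrees. On functions supported in `W`
and a measurable set with at most `ρ N / 2` vertices the form of `T` is at most
`κ = 2 √(θ (1 - θ))`, `θ = (1 + ρ) η / 2`. So the distributions of the walk lose at least the factor
`κ` of their norm in each step, until the norm is `O(√(1 / N))`. Let `h` be the indicator function
of the non-expanding set of `G`, `f` its projection to the measurable functions, `g = h - f`. A
measurable function with values in `[0, 1]` and sum at most `N` can be transferred to `H`, where it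
has a small quadratic form; this bounds the form of `f` and the part of the form of `g` in `W`,
and `⟨g, T g⟩ ≥ λ ⟨g, g⟩` for `λ` close to `(4 - 9 η) / (4 - 5 η)`. By log-convexity `T` takes at
most the factor `λ` of the norm of `g` in each step, and after the number `j` of steps for which
`κ ^ (2 j) = 1 / n` some vertex `v` has a distribution with a large scalar product with `g`. Taking
`v` as a new seed increases the norm of the projection; this can be repeated at most
`O(λ ^ (- 2 j)) = O(n ^ β)` times. So no Yes instance and No instance are equivalent for `K n ^ β`
pebbles, and the oracle answers yes on the graphs which are equivalent to a Yes instance.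

(The formulas.) There are two 3-CNF formulas, one satisfiable and one of value less than `7 / 8 + ε`,
which are equivalent for a linear number of pebbles (systems of linear equations over the field with
two elements, two copies of each variable). A symmetric map preserves this equivalence, the loss
being the factor `a`: the equivalence classes of tuples are matched by Hall's theorem. So the oracle
gives the same answers on the two formulas as long as the questions are small.

(Large `η`.) A system of linear equations over the field with two elements, with three variables
in each equation, built from random permutations of the variables: the graph has a cloud of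
vertices for each local solution of an equation, and two clouds are joined more densely if the
local solutions share a literal. A solution gives a set of expansion less than `0.496`; for random
right-hand sides there is none. The expansion of the system lets Duplicator win.
-/

set_option autoImplicit false

namespace Pool.Agent.Results.MP_8d8c46_lc.SymmetricThreshold

open Pool.Agent.Lib.MP_8d8c46_lc Pool.Agent.Lib.MP_8d8c46_lc.CW Pool.Agent.Lib.MP_8d8c46_lc.Nw

/-- (1) Let `0 < η < 6 / 25` and `0 < δ ≤ 1 / 2` be rational. The number
`expo η = 2 log ((4 - 9 η) / (4 - 5 η)) / log (η (2 - η))` lies between `0` and `1`. For every `β > expo η`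
there is an oracle `O` for graphs which solves `SSE(η, δ)`, which gives (for some `K`) the same answer on graphs that are
equivalent for the bijective game with at least `K N ^ β` pebbles, `N` the number of vertices, and which has the
following property. For every `ε > 0` there is `c > 0` such that for all `n`, `1 ≤ a ≤ c n` and `r ≤ c n` there are a
satisfiable 3-CNF formula `φ` and a 3-CNF formula `ψ` of value less than `7 / 8 + ε`, both with `n` variables, such that
for every randomised symmetric algorithm with oracle `O`, of dimension `a` with `r` extra pebbles, the probabilities that
it accepts `φ` and `ψ` differ by at most the probability that on `φ` it asks the oracle about a graph with at least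
`(c n / a) ^ (1 / β)` vertices.

(2) For all rational `η ≥ 0.496` and `0 < δ ≤ 1 / 8` linearly many pebbles are needed:
there are `d` and `c > 0` and arbitrarily large pairs of a Yes
instance `G` and a No instance `H` of `SSE(η, δ)`, both `d`-regular with the same vertex set `V`, which are equivalent for
the bijective game with `k` pebbles for all `k ≤ c |V|`. -/
theorem result :
    (∀ η δ : ℚ, 0 < η → η < 6 / 25 → 0 < δ → δ ≤ 1 / 2 → 0 < expo (η : ℝ) ∧ expo (η : ℝ) < 1 ∧
      ∀ β : ℝ, expo (η : ℝ) < β → ∃ O : Oracle, Solves η δ O ∧
        (∃ K : ℝ, ∀ (V W : Type) [Fintype V] [Fintype W] (G : SimpleGraph V) (H : SimpleGraph W) (k : ℕ),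
          0 < k → K * (Fintype.card V : ℝ) ^ β ≤ k → PebbleEquiv k G H → (O V G ↔ O W H)) ∧
        ∀ ε : ℝ, 0 < ε → ∃ c : ℝ, 0 < c ∧ ∀ n a r : ℕ, 1 ≤ a → (a : ℝ) ≤ c * n → (r : ℝ) ≤ c * n →
          ∃ φ ψ : Formula (Fin n), Satisfiable φ ∧ ValueLt (7 / 8 + ε) ψ ∧
            ∀ P : PMF (SymAlg (Fin 3 → Bool) (Fin n) a r),
              |(P.toOuterMeasure {T | T.Accepts O (toStruct φ)}).toReal -
                  (P.toOuterMeasure {T | T.Accepts O (toStruct ψ)}).toReal| ≤
                (P.toOuterMeasure {T | T.AsksLarge O (toStruct φ) ((c * n / a) ^ (1 / β))}).toReal) ∧
    (∀ η δ : ℚ, 496 / 1000 ≤ η → 0 < δ → δ ≤ 1 / 8 →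
      ∃ (d : ℕ) (c : ℝ), 0 < c ∧ ∀ N₀ : ℕ, ∃ (V : Type) (_ : Fintype V) (G H : SimpleGraph V),
        N₀ ≤ Fintype.card V ∧ Regular G d ∧ Regular H d ∧ SSEYes η δ G ∧ SSENo η δ H ∧
          ∀ k : ℕ, (k : ℝ) ≤ c * Fintype.card V → PebbleEquiv k G H) := by
  refine ⟨fun η δ hη0 hη hδ0 hδ => ?_, fun η δ hη hδ0 hδ => wl_main hη hδ0 hδ⟩
  have h0 : (0 : ℝ) < (η : ℝ) := by exact_mod_cast hη0
  exact ⟨expo_pos h0 (lt_cast hη), expo_lt_one h0 (lt_cast hη), fun β hβ => main_two hη0 hη hδ0 hδ hβ⟩

end Pool.Agent.Results.MP_8d8c46_lc.SymmetricThreshold
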