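import Pool.Agent.Lib.MP_8d8c46_lc.MC.T58
import Pool.Agent.Lib.MP_8d8c46_lc.MC.Streaming

/-!
# Small-set expansion needs `√n` bits of communication, whatever the number of rounds

The definitions are in `Pool/Agent/Lib/MP_8d8c46_lc/Problem.lean` (the promise problem
`SSE(η, δ)`: `SSEYes` and `SSENo`), in `Pool/Agent/Lib/MP_8d8c46_lc/MC/Defs.lean` (communication:
`Protocol`, `Protocol.run`, `Protocol.cost`, `view`, `answerProb`, `Separates`) and in
`Pool/Agent/Lib/MP_8d8c46_lc/MC/StreamDefs.lean` (streaming: `Streaming`, `Streaming.run`,
`StreamSeparates`).

The edges of the graph are distributed among `d²` players by a fixed partition of the pairs of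
vertices; the players announce bits, in any order and in any number of rounds, with common random
choices. A streaming algorithm that reads the edges (first those of player `1`, then those of
player `2`, ...) in `p` passes with a memory of `s` bits is such a protocol with `p s d²` bits.

Proof idea. Let `δ = p / q`. No instances: lifts of the complete bipartite graph `K_{d,d}` by
independent random permutations of `N` points with random labels in `ZMod q` (one labelled
permutation for each pair of classes = for each player). Yes instances: the labels are the
differences of a hidden assignment `x`, up to a small noise. One follows the protocol and, whenever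
the set of labelled permutations of a player which are compatible with the transcript is no longer
spread, reveals some of its values (density restoration). A multiplicative supermartingale shows
that a protocol with `C` bits leads to `O(C)` revealed edges; as long as `C ≤ c √n`, the revealed
edges form a forest and no unrevealed edge joins two touched vertices, with high probability. On
such a rectangle the hidden assignment is uniform up to the forest; the levels of the densities of
the players are small by a level inequality (hypercontractivity for all even powers) and by
spreadness, and their product over all players is estimated by Hölder's inequality and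
hypercontractivity.
-/

set_option autoImplicit false

namespace Pool.Agent.Results.MP_8d8c46_lc.UnlimitedInteraction

open Pool.Agent.Lib.MP_8d8c46_lc Pool.Agent.Lib.MP_8d8c46_lc.MC

/-- For all rationals `0 < δ < η < 1` and all sufficiently large `d` the following holds: for every
rational `ε > 0` there is `c > 0` such that for every sufficiently large `N` and every set `V` of
`2 d q N` vertices, where `q` is the denominator of `δ`:

* there is a partition `col` of the pairs of vertices into `d²` classes such that every randomized
protocol of `d²` players, which hold the edges of a graph on `V` in the respective classes, that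
separates (with error probability at most `1/3`) the `d`-regular graphs on `V` with a set of `δ|V|`
vertices of expansion at most `ε` from the `d`-regular No instances of `SSE(η, δ)` on `V`, has cost
at least `c √|V|`;
* every randomized streaming algorithm which separates these graphs in `p` passes over the edges,
given in arbitrary order, with a memory of `s` bits, satisfies `p s ≥ c √|V|`. -/
theorem result {η δ : ℚ} (hδ : 0 < δ) (hδη : δ < η) (hη : η < 1) :
    ∃ d₀ : ℕ, ∀ d ≥ d₀, ∀ ε : ℚ, 0 < ε → ∃ c : ℝ, 0 < c ∧ ∃ N₀ : ℕ, ∀ N ≥ N₀,
      ∀ (V : Type) [Fintype V], Fintype.card V = 2 * d * δ.den * N →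
        (∃ col : Sym2 V → Fin (d * d), ∀ (A : PMF (Protocol (d * d) (Set (Sym2 V)))) (C : ℕ),
          (∀ P ∈ A.support, P.cost ≤ C) → Separates ε η δ d col A →
            c * √(Fintype.card V) ≤ C) ∧
        ∀ (p s : ℕ) (B : PMF (Streaming V s)), StreamSeparates ε η δ d p B →
          c * √(Fintype.card V) ≤ p * s := by
  obtain ⟨d₀, hd₀⟩ := main hδ hδη hη
  refine ⟨d₀, fun d hd ε hε => ?_⟩
  obtain ⟨c, hc, N₀, hN₀⟩ := hd₀ d hd ε hε
  have hd1 : (0 : ℝ) < d * d + 1 := by positivity
  refine ⟨c / (d * d + 1), div_pos hc hd1, N₀, fun N hN V _ hV => ?_⟩
  obtain ⟨col, hcol⟩ := hN₀ N hN V hV
  have hle : c / ((d : ℝ) * d + 1) ≤ c := div_le_self hc.le (by nlinarith)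
  refine ⟨⟨col, fun A C hA hsep => ?_⟩, fun p s B hB => ?_⟩
  · exact (mul_le_mul_of_nonneg_right hle (Real.sqrt_nonneg _)).trans (hcol A C hA hsep)
  · obtain ⟨h1, h2⟩ := separates_of_streaming hB col
    have h3 := hcol _ _ h1 h2
    push_cast at h3
    rw [div_mul_eq_mul_div, div_le_iff₀ hd1]
    have h4 : (0 : ℝ) ≤ p * s := by positivity
    nlinarith

end Pool.Agent.Results.MP_8d8c46_lc.UnlimitedInteraction
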